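import Mathlib

/-!
# Matrices of small rank: lower bounds
-/

set_option autoImplicit false

namespace Pool.Agent.K9h27.LR

open Module Finset

theorem rank_rows {n m N : ℕ} (w : Fin N → ℂ) (f : Fin n → Fin m → Fin N) {κ : Type}
    [Fintype κ] (g : κ → Fin m → ℂ)
    (h : ∀ i, (fun j => w (f i j)) ∈ Submodule.span ℂ (Set.range g)) :
    (Matrix.of fun i j => w (f i j)).rank ≤ Fintype.card κ := by
  rw [Matrix.rank_eq_finrank_span_row]
  refine le_trans (Submodule.finrank_mono ?_) (finrank_range_le_card (R := ℂ) g)
  rw [Submodule.span_le]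
  rintro _ ⟨i, rfl⟩
  exact h i

theorem rank_cols {n m N : ℕ} (w : Fin N → ℂ) (f : Fin n → Fin m → Fin N) {κ : Type}
    [Fintype κ] (g : κ → Fin n → ℂ)
    (h : ∀ j, (fun i => w (f i j)) ∈ Submodule.span ℂ (Set.range g)) :
    (Matrix.of fun i j => w (f i j)).rank ≤ Fintype.card κ := by
  rw [Matrix.rank_eq_finrank_span_cols]
  refine le_trans (Submodule.finrank_mono ?_) (finrank_range_le_card (R := ℂ) g)
  rw [Submodule.span_le]
  rintro _ ⟨j, rfl⟩
  exact h j

/-- the lower bound for the number of matrices of rank at most `r` -/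
theorem low_rank {n m N r : ℕ} (w : Fin N → ℂ) (hr1 : 1 ≤ r) (hn : r ≤ n) (hm : r ≤ m) :
    N ^ (r * max n m) ≤
      {f : Fin n → Fin m → Fin N | (Matrix.of fun i j => w (f i j)).rank ≤ r}.ncard := by
  classical
  have hcut : ∀ k : ℕ, min k (r - 1) < r := fun k => by omega
  rcases le_total n m with h | h
  · rw [max_eq_right h]
    let F : (Fin r → Fin m → Fin N) → (Fin n → Fin m → Fin N) :=
      fun g i j => g ⟨min i (r - 1), hcut i⟩ j
    have hF : Function.Injective F := by
      intro g g' hg
      funext k j
      have h1 := congrFun (congrFun hg ⟨k, by omega⟩) j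
      have h2 : (⟨min (k : ℕ) (r - 1), hcut k⟩ : Fin r) = k := Fin.ext (by simp; omega)
      simpa only [F, h2] using h1
    have h3 : Set.range F ⊆
        {f : Fin n → Fin m → Fin N | (Matrix.of fun i j => w (f i j)).rank ≤ r} := by
      rintro _ ⟨g, rfl⟩
      have h4 := rank_rows w (F g) (fun (k : Fin r) j => w (g k j)) (fun i =>
        Submodule.subset_span ⟨⟨min i (r - 1), hcut i⟩, rfl⟩)
      rwa [Fintype.card_fin] at h4
    calc N ^ (r * m) = Nat.card (Fin r → Fin m → Fin N) := by
          rw [Nat.card_eq_fintype_card, Fintype.card_fun, Fintype.card_fun, Fintype.card_fin,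
            Fintype.card_fin, Fintype.card_fin, ← pow_mul, mul_comm]
      _ = (Set.range F).ncard := by
          rw [← Set.image_univ, Set.ncard_image_of_injective _ hF, Set.ncard_univ]
      _ ≤ _ := Set.ncard_le_ncard h3 (Set.toFinite _)
  · rw [max_eq_left h]
    let F : (Fin r → Fin n → Fin N) → (Fin n → Fin m → Fin N) :=
      fun g i j => g ⟨min j (r - 1), hcut j⟩ i
    have hF : Function.Injective F := by
      intro g g' hg
      funext k i
      have h1 := congrFun (congrFun hg i) ⟨k, by omega⟩
      have h2 : (⟨min (k : ℕ) (r - 1), hcut k⟩ : Fin r) = k := Fin.ext (by simp; omega)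
      simpa only [F, h2] using h1
    have h3 : Set.range F ⊆
        {f : Fin n → Fin m → Fin N | (Matrix.of fun i j => w (f i j)).rank ≤ r} := by
      rintro _ ⟨g, rfl⟩
      have h4 := rank_cols w (F g) (fun (k : Fin r) i => w (g k i)) (fun j =>
        Submodule.subset_span ⟨⟨min j (r - 1), hcut j⟩, rfl⟩)
      rwa [Fintype.card_fin] at h4
    calc N ^ (r * n) = Nat.card (Fin r → Fin n → Fin N) := by
          rw [Nat.card_eq_fintype_card, Fintype.card_fun, Fintype.card_fun, Fintype.card_fin,
            Fintype.card_fin, Fintype.card_fin, ← pow_mul, mul_comm]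
      _ = (Set.range F).ncard := by
          rw [← Set.image_univ, Set.ncard_image_of_injective _ hF, Set.ncard_univ]
      _ ≤ _ := Set.ncard_le_ncard h3 (Set.toFinite _)

/-- the lower bound for the number of matrices of rank at most `r` with `n` distinct rows -/
theorem low_rows {n m N r : ℕ} (w : Fin N → ℂ) (hr1 : 1 ≤ r) (hn : r < n) (hm : 0 < m) :
    N.descFactorial ((r - 1) * (m - 1) + n) ≤
      {f : Fin n → Fin m → Fin N | (Matrix.of fun i j => w (f i j)).rank ≤ r ∧
        r < (Set.range f).ncard}.ncard := by
  classical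
  obtain ⟨s, rfl⟩ : ∃ s, r = s + 1 := ⟨r - 1, by omega⟩
  rw [Nat.add_sub_cancel]
  let A := (Fin s × Fin m) ⊕ Fin (n - s)
  let F : (A ↪ Fin N) → (Fin n → Fin m → Fin N) := fun e i j =>
    if h : (i : ℕ) < s then e (Sum.inl (⟨i, h⟩, j)) else e (Sum.inr ⟨i - s, by omega⟩)
  have hF : Function.Injective F := by
    intro e e' he
    ext a
    rcases a with ⟨k, j⟩ | k
    · have h1 := congrFun (congrFun he ⟨k, by omega⟩) j
      simp only [F, k.2, dif_pos] at h1
      exact congrArg Fin.val h1
    · have h1 := congrFun (congrFun he ⟨k + s, by omega⟩) ⟨0, hm⟩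
      have h2 : ¬ ((k : ℕ) + s < s) := by omega
      simp only [F, h2, dif_neg, not_false_eq_true, Nat.add_sub_cancel] at h1
      exact congrArg Fin.val h1
  have h3 : Set.range F ⊆
      {f : Fin n → Fin m → Fin N | (Matrix.of fun i j => w (f i j)).rank ≤ s + 1 ∧
        s + 1 < (Set.range f).ncard} := by
    rintro _ ⟨e, rfl⟩
    refine ⟨?_, ?_⟩
    · have h4 := rank_rows w (F e) (κ := Option (Fin s))
        (fun o j => o.elim 1 fun k => w (e (Sum.inl (k, j)))) (fun i => by
          by_cases h : (i : ℕ) < s
          · refine Submodule.subset_span ⟨some ⟨i, h⟩, ?_⟩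
            funext j
            simp only [F, h, dif_pos, Option.elim_some]
          · have h5 : (fun j => w (F e i j)) =
                w (e (Sum.inr ⟨i - s, by omega⟩)) • (fun _ : Fin m => (1 : ℂ)) := by
              funext j
              simp only [F, h, dif_neg, not_false_eq_true, Pi.smul_apply, smul_eq_mul, mul_one]
            rw [h5]
            refine Submodule.smul_mem _ _ (Submodule.subset_span ⟨none, ?_⟩)
            funext j
            simp only [Option.elim_none])
      rw [Fintype.card_option, Fintype.card_fin] at h4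
      exact h4
    · have h5 : Function.Injective (F e) := by
        intro i i' hi
        have h6 := congrFun hi ⟨0, hm⟩
        by_cases h : (i : ℕ) < s
        · by_cases h' : (i' : ℕ) < s
          · simp only [F, h, h', dif_pos] at h6
            have h7 := e.injective h6
            have h8 := congrArg (fun p : Fin s × Fin m => (p.1 : ℕ)) (Sum.inl.inj h7)
            exact Fin.ext h8
          · simp only [F, h, h', dif_pos, dif_neg, not_false_eq_true] at h6
            have h7 := e.injective h6
            exact absurd h7 Sum.inl_ne_inr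
        · by_cases h' : (i' : ℕ) < s
          · simp only [F, h, h', dif_pos, dif_neg, not_false_eq_true] at h6
            have h7 := e.injective h6
            exact absurd h7 Sum.inr_ne_inl
          · simp only [F, h, h', dif_neg, not_false_eq_true] at h6
            have h7 := e.injective h6
            have h8 : (i : ℕ) - s = (i' : ℕ) - s := congrArg (fun p : Fin (n - s) => (p : ℕ))
              (Sum.inr.inj h7)
            exact Fin.ext (by omega)
      rw [← Set.image_univ, Set.ncard_image_of_injective _ h5, Set.ncard_univ,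
        Nat.card_eq_fintype_card, Fintype.card_fin]
      exact hn
  have hA : Fintype.card A = s * (m - 1) + n := by
    rw [Fintype.card_sum, Fintype.card_prod, Fintype.card_fin, Fintype.card_fin, Fintype.card_fin]
    obtain ⟨b, rfl⟩ : ∃ b, m = b + 1 := ⟨m - 1, by omega⟩
    rw [Nat.add_sub_cancel, mul_add, mul_one]
    omega
  calc N.descFactorial (s * (m - 1) + n) = Nat.card (A ↪ Fin N) := by
        rw [Nat.card_eq_fintype_card, Fintype.card_embedding_eq, Fintype.card_fin, hA]
    _ = (Set.range F).ncard := by
        rw [← Set.image_univ, Set.ncard_image_of_injective _ hF, Set.ncard_univ]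
    _ ≤ _ := Set.ncard_le_ncard h3 (Set.toFinite _)

end Pool.Agent.K9h27.LR
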