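import Pool.Agent.W254.HP.Rel
import Pool.Agent.W254.HP.Opt

/-!
# Relations with few coefficients between linear forms in logarithms
-/

set_option autoImplicit false

namespace Pool.Agent.K9h27.LR

open Module Finset
open Pool.Agent.H301R2.SSE (QB mem_QB Lt)
open Pool.Agent.W254.HP (rel_core opt_indep)

/-- at most `r (r + 1)` independent relations with the same `r + 1` coefficients -/
theorem few_relations {ι : Type*} (w : ι → ℂ) (hw : LinearIndependent QB w) (hL : ∀ i, w i ∈ Lt)
    {r : ℕ} {α : Type*} [Fintype α] (hα : Fintype.card α ≤ r + 1) (lam : α → ℂ) {κ : Type*}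
    [Fintype κ] (φ : α → κ → ι)
    (hind : LinearIndependent ℂ (fun j : κ => (∑ i, Finsupp.single (φ i j) (lam i) : ι →₀ ℂ)))
    (h0 : ∀ j, ∑ i, lam i * w (φ i j) = 0) : Fintype.card κ ≤ r * (r + 1) := by
  classical
  let C : Submodule QB ℂ := Submodule.span QB (Set.range lam)
  have hfin : FiniteDimensional QB C := FiniteDimensional.span_of_finite QB (Set.finite_range lam)
  let B : Submodule QB ℂ := Submodule.span QB {1}
  have hB : FiniteDimensional QB B := FiniteDimensional.span_of_finite QB (Set.finite_singleton 1)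
  have hB1 : finrank QB B = 1 := finrank_span_singleton one_ne_zero
  have hC1 : finrank QB C ≤ r + 1 := (finrank_range_le_card lam).trans hα
  let e := Fintype.equivFin κ
  have key := rel_core w hw hL C B C (by
      intro b hb a ha
      obtain ⟨q, rfl⟩ := Submodule.mem_span_singleton.1 hb
      rw [smul_mul_assoc, one_mul]
      exact C.smul_mem _ ha)
    (Fintype.card κ) (fun m => ∑ i, Finsupp.single (φ i (e.symm m)) (lam i))
    (hind.comp e.symm e.symm.injective) (by
      intro m s
      rw [Finsupp.finsetSum_apply]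
      refine Submodule.sum_mem _ fun i _ => ?_
      rw [Finsupp.single_apply]
      split_ifs
      · exact Submodule.subset_span ⟨i, rfl⟩
      · exact C.zero_mem) (by
      intro m
      rw [← Finsupp.sum_finsetSum_index (by intro a; exact zero_mul _)
        (by intro a b c; exact add_mul _ _ _)]
      rw [← h0 (e.symm m)]
      refine sum_congr rfl fun i _ => ?_
      rw [Finsupp.sum_single_index (zero_mul _)])
  rw [hB1, mul_one] at key
  refine key.trans ?_
  calc finrank QB C * (finrank QB C - 1) ≤ (r + 1) * r := Nat.mul_le_mul hC1 (by omega)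
    _ = r * (r + 1) := mul_comm _ _

/-- triangular families of relations are independent -/
theorem tri {ι α κ : Type*} [Fintype α] (lam : α → ℂ) (φ : α → κ → ι) (i0 : α) (h0 : lam i0 ≠ 0)
    (ord : κ → ℕ)
    (H : ∀ i j j0, lam i ≠ 0 → φ i j = φ i0 j0 → (i = i0 ∧ j = j0) ∨ ord j0 < ord j) :
    LinearIndependent ℂ (fun j : κ => (∑ i, Finsupp.single (φ i j) (lam i) : ι →₀ ℂ)) := by
  classical
  rw [linearIndependent_iff']
  intro s g hg
  by_contra hcon
  push Not at hcon
  obtain ⟨j1, hj1, hj1'⟩ := hcon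
  obtain ⟨j0, hj0, hmax⟩ := exists_max_image (s.filter fun j => g j ≠ 0) ord
    ⟨j1, mem_filter.2 ⟨hj1, hj1'⟩⟩
  rw [mem_filter] at hj0
  have h1 := DFunLike.congr_fun hg (φ i0 j0)
  rw [Finsupp.finsetSum_apply, Finsupp.zero_apply] at h1
  have h2 : ∑ j ∈ s, (g j • (∑ i, Finsupp.single (φ i j) (lam i) : ι →₀ ℂ)) (φ i0 j0) =
      g j0 * lam i0 := by
    rw [sum_eq_single j0]
    · rw [Finsupp.smul_apply, Finsupp.finsetSum_apply, smul_eq_mul]
      congr 1
      rw [sum_eq_single i0]
      · rw [Finsupp.single_eq_same]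
      · intro i _ hi
        by_cases hl : lam i = 0
        · rw [hl, Finsupp.single_zero, Finsupp.zero_apply]
        · rw [Finsupp.single_apply, if_neg]
          intro he
          rcases H i j0 j0 hl he with h3 | h3
          · exact hi h3.1
          · exact lt_irrefl _ h3
      · intro h3
        exact absurd (mem_univ _) h3
    · intro j hj hjj
      rw [Finsupp.smul_apply, Finsupp.finsetSum_apply, smul_eq_mul]
      by_cases hgj : g j = 0
      · rw [hgj, zero_mul]
      · rw [mul_eq_zero]
        right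
        refine sum_eq_zero fun i _ => ?_
        by_cases hl : lam i = 0
        · rw [hl, Finsupp.single_zero, Finsupp.zero_apply]
        · rw [Finsupp.single_apply, if_neg]
          intro he
          rcases H i j j0 hl he with h3 | h3
          · exact hjj h3.2
          · exact absurd (hmax j (mem_filter.2 ⟨hj, hgj⟩)) (not_le.2 h3)
    · intro h3
      exact absurd hj0.1 h3
  rw [h2] at h1
  rcases mul_eq_zero.1 h1 with h3 | h3
  · exact hj0.2 h3
  · exact h0 h3

/-- the rows of a matrix of rank at most `r` -/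
theorem rows_dep {X Y : Type*} [Fintype X] [Fintype Y] (M : Matrix X Y ℂ) {r : ℕ}
    (hr : M.rank ≤ r) (S : Finset X) (hS : S.card = r + 1) :
    ∃ lam : S → ℂ, (∃ i, lam i ≠ 0) ∧ ∀ j, ∑ i : S, lam i * M i j = 0 := by
  classical
  by_contra hcon
  have hli : LinearIndependent ℂ (fun i : S => M i) := by
    by_contra h
    obtain ⟨g, hg, hg'⟩ := Fintype.not_linearIndependent_iff.1 h
    refine hcon ⟨g, hg', fun j => ?_⟩
    have h1 := congrFun hg j
    rw [Finset.sum_apply] at h1
    simpa using h1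
  have h1 := finrank_span_eq_card hli
  rw [Fintype.card_coe, hS] at h1
  have h2 : finrank ℂ (Submodule.span ℂ (Set.range (fun i : S => M i))) ≤
      finrank ℂ (Submodule.span ℂ (Set.range M.row)) :=
    Submodule.finrank_mono (Submodule.span_mono (by
      rintro _ ⟨i, rfl⟩
      exact ⟨i, rfl⟩))
  rw [← Matrix.rank_eq_finrank_span_row] at h2
  omega

/-- the translates of a linear recurrence sequence -/
theorem translates_dep {r : ℕ} (u : ℕ → ℂ) (c : Fin r → ℂ)
    (hu : ∀ k, u (k + r) = ∑ i, c i * u (k + i)) (S : Finset ℕ) (hS : S.card = r + 1) :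
    ∃ lam : S → ℂ, (∃ i, lam i ≠ 0) ∧ ∀ t, ∑ i : S, lam i * u (i + t) = 0 := by
  classical
  let E : LinearRecurrence ℂ := ⟨r, c⟩
  have hsol : ∀ a : ℕ, (fun t => u (a + t)) ∈ E.solSpace := by
    intro a
    rw [← LinearRecurrence.is_sol_iff_mem_solSpace]
    intro n
    have h1 := hu (a + n)
    rw [add_assoc] at h1
    rw [show (fun t => u (a + t)) (n + E.order) = u (a + (n + r)) from rfl, h1]
    refine sum_congr rfl fun i _ => ?_
    rw [add_assoc]
  have hfr : finrank ℂ E.solSpace = r := by
    rw [finrank_eq_card_basis E.basis, Fintype.card_fin]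
  have : FiniteDimensional ℂ E.solSpace := Module.Basis.finiteDimensional_of_finite E.basis
  by_contra hcon
  have hli : LinearIndependent ℂ (fun i : S => (⟨_, hsol i⟩ : E.solSpace)) := by
    by_contra h
    obtain ⟨g, hg, hg'⟩ := Fintype.not_linearIndependent_iff.1 h
    refine hcon ⟨g, hg', fun t => ?_⟩
    have h1 := congrArg (fun z : E.solSpace => (z : ℕ → ℂ) t) hg
    simpa using h1
  have h1 := hli.fintype_card_le_finrank
  rw [Fintype.card_coe, hS, hfr] at h1
  omega

/-- **Matrices.** -/
theorem matrix_common {X Y : Type*} [Fintype X] [Fintype Y] [DecidableEq X] [DecidableEq Y]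
    (M : Matrix X Y ℂ) {r : ℕ} (hr : M.rank ≤ r) (E : Finset (X × Y))
    (hL : ∀ e : E, M e.1.1 e.1.2 ∈ Lt)
    (hw : LinearIndependent QB (fun e : E => M e.1.1 e.1.2)) (S : Finset X)
    (hS : S.card = r + 1) :
    (univ.filter (fun j : Y => ∀ i ∈ S, (i, j) ∈ E)).card ≤ r * (r + 1) := by
  classical
  obtain ⟨lam, ⟨i0, hi0⟩, h0⟩ := rows_dep M hr S hS
  set J := univ.filter (fun j : Y => ∀ i ∈ S, (i, j) ∈ E) with hJ
  have hJm : ∀ (i : S) (j : J), ((i : X), (j : Y)) ∈ E := fun i j => (mem_filter.1 j.2).2 i i.2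
  have key := few_relations (fun e : E => M e.1.1 e.1.2) hw hL (r := r) (α := S)
    (by rw [Fintype.card_coe, hS]) lam (κ := J) (fun i j => ⟨(i, j), hJm i j⟩)
    (tri lam _ i0 hi0 (fun _ => 0) (by
      intro i j j0 _ he
      left
      have h1 := congrArg Subtype.val he
      simp only [Prod.mk.injEq] at h1
      exact ⟨Subtype.ext h1.1, Subtype.ext h1.2⟩))
    (fun j => h0 j)
  rwa [Fintype.card_coe] at key

/-- **Recurrences.** -/
theorem translates_common {r : ℕ} (u : ℕ → ℂ) (c : Fin r → ℂ)
    (hu : ∀ k, u (k + r) = ∑ i, c i * u (k + i)) (K : Finset ℕ) (hL : ∀ k : K, u k ∈ Lt)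
    (hw : LinearIndependent QB (fun k : K => u k)) (S : Finset ℕ) (hS : S.card = r + 1)
    (T : Finset ℕ) (hT : ∀ t ∈ T, ∀ s ∈ S, s + t ∈ K) : T.card ≤ r * (r + 1) := by
  classical
  obtain ⟨lam, ⟨i1, hi1⟩, h0⟩ := translates_dep u c hu S hS
  obtain ⟨i0, hi0, hmax⟩ := exists_max_image (univ.filter fun i : S => lam i ≠ 0)
    (fun i => (i : ℕ)) ⟨i1, mem_filter.2 ⟨mem_univ _, hi1⟩⟩
  rw [mem_filter] at hi0
  have key := few_relations (fun k : K => u k) hw hL (r := r) (α := S)
    (by rw [Fintype.card_coe, hS]) lam (κ := T) (fun i t => ⟨(i : ℕ) + t, hT t t.2 i i.2⟩)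
    (tri lam _ i0 hi0.2 (fun t => (t : ℕ)) (by
      intro i t t0 hi he
      have h1 : (i : ℕ) + t = (i0 : ℕ) + t0 := congrArg Subtype.val he
      have h2 := hmax i (mem_filter.2 ⟨mem_univ _, hi⟩)
      rcases Nat.lt_or_ge (t0 : ℕ) t with h3 | h3
      · exact Or.inr h3
      · left
        exact ⟨Subtype.ext (by omega), Subtype.ext (by omega)⟩))
    (fun t => h0 t)
  rwa [Fintype.card_coe] at key

/-- logarithms of primes plus algebraic numbers -/
theorem primes_indep {ι : Type} (p : ι → ℕ) (hp : ∀ i, (p i).Prime) (hinj : Function.Injective p)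
    (α : ι → ℂ) (hα : ∀ i, IsAlgebraic ℚ (α i)) :
    (∀ i, ((Real.log (p i) : ℝ) : ℂ) + α i ∈ Lt) ∧
      LinearIndependent QB (fun i => ((Real.log (p i) : ℝ) : ℂ) + α i) := by
  classical
  have halg : ∀ i, IsAlgebraic ℚ (Complex.exp ((Real.log (p i) : ℝ) : ℂ)) := by
    intro i
    rw [← Complex.ofReal_exp, Real.exp_log (by exact_mod_cast (hp i).pos)]
    exact_mod_cast isAlgebraic_algebraMap (R := ℚ) (A := ℂ) ((p i : ℕ) : ℚ)
  have hQ : LinearIndependent ℚ (fun i => ((Real.log (p i) : ℝ) : ℂ)) := by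
    have h1 := Pool.Agent.W254.HP.log_primes_indep
    exact h1.comp (fun i => (⟨p i, hp i⟩ : Nat.Primes)) (fun a b h => hinj (congrArg Subtype.val h))
  have h1 := opt_indep (fun i => ((Real.log (p i) : ℝ) : ℂ)) halg hQ
  refine ⟨fun i => ?_, ?_⟩
  · refine Lt.add_mem (Pool.Agent.H301R2.SSE.Lt_log (halg i)) ?_
    have h2 : α i = (⟨α i, mem_QB.2 (hα i)⟩ : QB) • (1 : ℂ) := by
      rw [Algebra.smul_def, mul_one]
      rfl
    rw [h2]
    exact Lt.smul_mem _ Pool.Agent.H301R2.SSE.Lt_one
  · rw [linearIndependent_iff']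
    intro s g hg i hi
    rw [linearIndependent_iff'] at h1
    have h3 := h1 (insert none (s.map Function.Embedding.some))
      (fun o => o.elim (∑ i ∈ s, g i * ⟨α i, mem_QB.2 (hα i)⟩) g) (by
        rw [sum_insert (by simp), sum_map]
        rw [← hg]
        simp only [Option.elim_none, Function.Embedding.some_apply, Option.elim_some]
        rw [Finset.sum_smul, ← sum_add_distrib]
        refine sum_congr rfl fun i _ => ?_
        rw [Algebra.smul_def, Algebra.smul_def, Algebra.smul_def, map_mul, mul_one, mul_add,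
          add_comm]
        rfl) (some i) (mem_insert_of_mem (mem_map.2 ⟨i, hi, rfl⟩))
    exact h3

end Pool.Agent.K9h27.LR
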