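import Pool.Agent.K9h27.LR.Core

/-!
# The number of matrices of logarithms with dependent rows
-/

set_option autoImplicit false

namespace Pool.Agent.K9h27.LR

open Module Finset
open Pool.Agent.H301R2.SSE (QB mem_QB Lt)

/-- the solutions of a relation with given nonzero coefficients -/
theorem few_solutions {ι : Type*} [DecidableEq ι] (w : ι → ℂ)
    (hw : LinearIndependent QB w) (hL : ∀ i, w i ∈ Lt) {α : Type*} [Fintype α]
    [DecidableEq α] (lam : α → ℂ) (hlam : ∀ i, lam i ≠ 0)
    (R : Finset (α → ι)) (hR : ∀ v ∈ R, Function.Injective v ∧ ∑ i, lam i * w (v i) = 0) :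
    R.card ≤ (Fintype.card α ^ 2 * (Fintype.card α - 1)) ^ Fintype.card α := by
  classical
  rcases Nat.eq_zero_or_pos (Fintype.card α) with h0 | hpos
  · rw [h0, pow_zero]
    haveI : IsEmpty α := Fintype.card_eq_zero_iff.1 h0
    exact Finset.card_le_one.2 fun a _ b _ => Subsingleton.elim _ _
  obtain ⟨D, hD⟩ : ∃ D, Fintype.card α = D + 1 := ⟨Fintype.card α - 1, by omega⟩
  let ρ : (α → ι) → (ι →₀ ℂ) := fun v => ∑ i, Finsupp.single (v i) (lam i)
  obtain ⟨κ, a, ha, hspan, hli⟩ := exists_linearIndependent' ℂ (fun v : R => ρ v)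
  have : Finite κ := Finite.of_injective a ha
  have := Fintype.ofFinite κ
  have hcard : Fintype.card κ ≤ D * (D + 1) :=
    few_relations w hw hL (r := D) (α := α) (by omega) lam (κ := κ) (fun i j => (a j : α → ι) i)
      hli (fun j => (hR _ (a j).2).2)
  -- the union of the supports
  let U : Finset ι := univ.biUnion fun j : κ => univ.image (a j : α → ι)
  have hU : U.card ≤ (D + 1) ^ 2 * D := by
    calc U.card ≤ ∑ j : κ, (univ.image (a j : α → ι)).card := card_biUnion_le
      _ ≤ ∑ _j : κ, (D + 1) := sum_le_sum fun j _ => card_image_le.trans (by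
            rw [card_univ, hD])
      _ = Fintype.card κ * (D + 1) := by rw [sum_const, card_univ, smul_eq_mul]
      _ ≤ (D * (D + 1)) * (D + 1) := Nat.mul_le_mul_right _ hcard
      _ = (D + 1) ^ 2 * D := by ring
  have hsup : ∀ v ∈ R, ∀ i, v i ∈ U := by
    intro v hv i
    have h1 : ρ v ∈ Submodule.span ℂ (Set.range ((fun v : R => ρ v) ∘ a)) := by
      rw [hspan]
      exact Submodule.subset_span ⟨⟨v, hv⟩, rfl⟩
    have h2 : Submodule.span ℂ (Set.range ((fun v : R => ρ v) ∘ a)) ≤
        Finsupp.supported ℂ ℂ (U : Set ι) := by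
      rw [Submodule.span_le]
      rintro _ ⟨j, rfl⟩
      rw [SetLike.mem_coe]
      refine Submodule.sum_mem _ fun i _ => ?_
      refine Finsupp.single_mem_supported ℂ _ ?_
      exact_mod_cast mem_biUnion.2 ⟨j, mem_univ _, mem_image_of_mem _ (mem_univ i)⟩
    have h3 := h2 h1
    rw [Finsupp.mem_supported] at h3
    have h4 : v i ∈ (ρ v).support := by
      rw [Finsupp.mem_support_iff, Finsupp.finsetSum_apply, sum_eq_single i]
      · rw [Finsupp.single_eq_same]
        exact hlam i
      · intro k _ hk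
        rw [Finsupp.single_apply, if_neg]
        intro he
        exact hk ((hR v hv).1 he)
      · intro h
        exact absurd (mem_univ _) h
    exact_mod_cast h3 (by exact_mod_cast h4)
  have h5 : R.card ≤ Fintype.card (α → U) := by
    rw [← Fintype.card_coe R]
    refine Fintype.card_le_of_injective (fun v : R => fun i => (⟨(v : α → ι) i, hsup v v.2 i⟩ : U)) ?_
    intro v v' h
    apply Subtype.ext
    funext i
    exact congrArg Subtype.val (congrFun h i)
  rw [Fintype.card_fun, Fintype.card_coe] at h5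
  calc R.card ≤ U.card ^ Fintype.card α := h5
    _ ≤ ((D + 1) ^ 2 * D) ^ Fintype.card α := Nat.pow_le_pow_left hU _
    _ = (Fintype.card α ^ 2 * (Fintype.card α - 1)) ^ Fintype.card α := by
        rw [hD, Nat.add_sub_cancel]

/-- the set of all solutions -/
theorem solutions_finite {ι : Type*} (w : ι → ℂ) (hw : LinearIndependent QB w)
    (hL : ∀ i, w i ∈ Lt) {n : ℕ} (lam : Fin n → ℂ) (hlam : ∀ i, lam i ≠ 0) :
    {v : Fin n → ι | Function.Injective v ∧ ∑ i, lam i * w (v i) = 0}.Finite ∧
      {v : Fin n → ι | Function.Injective v ∧ ∑ i, lam i * w (v i) = 0}.ncard ≤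
        (n ^ 2 * (n - 1)) ^ n := by
  classical
  have key : ∀ R : Finset (Fin n → ι), (R : Set (Fin n → ι)) ⊆
      {v : Fin n → ι | Function.Injective v ∧ ∑ i, lam i * w (v i) = 0} →
      R.card ≤ (n ^ 2 * (n - 1)) ^ n := by
    intro R hR
    have h := few_solutions w hw hL lam hlam R fun v hv => hR hv
    rwa [Fintype.card_fin] at h
  have hfin : {v : Fin n → ι | Function.Injective v ∧ ∑ i, lam i * w (v i) = 0}.Finite := by
    by_contra hinf
    obtain ⟨R, hR, hc⟩ := Set.Infinite.exists_subset_card_eq hinf ((n ^ 2 * (n - 1)) ^ n + 1)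
    have := key R hR
    omega
  refine ⟨hfin, ?_⟩
  rw [Set.ncard_eq_toFinset_card _ hfin]
  exact key _ (by rw [Set.Finite.coe_toFinset])

/-- the matrices of type `(I, J)` -/
def Typ {X Y ι : Type*} [Fintype X] [DecidableEq X] (w : ι → ℂ) (I : Finset X) (J : Finset Y)
    (f : X → Y → ι) : Prop :=
  (∀ j, Function.Injective fun i => f i j) ∧
    ∃ lam : X → ℂ, (∀ i ∈ I, lam i ≠ 0) ∧ (∀ i, i ∉ I → lam i = 0) ∧
      (∀ j, ∑ i, lam i * w (f i j) = 0) ∧
      ∀ mu : X → ℂ, (∀ i, i ∉ I → mu i = 0) → (∀ j ∈ J, ∑ i, mu i * w (f i j) = 0) →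
        ∃ c : ℂ, mu = c • lam

theorem card_typ {X Y ι : Type*} [Fintype X] [DecidableEq X] [Fintype Y] [DecidableEq Y]
    [Fintype ι] [DecidableEq ι] (w : ι → ℂ) (hw : LinearIndependent QB w) (hL : ∀ i, w i ∈ Lt)
    (I : Finset X) (J : Finset Y) (B : Finset (X → Y → ι)) (hB : ∀ f ∈ B, Typ w I J f) :
    B.card ≤ ((Fintype.card X ^ 2 * Fintype.card X + 1) ^ Fintype.card X) ^ Fintype.card Y *
      Fintype.card ι ^ (Fintype.card X * Fintype.card Y - I.card * (Fintype.card Y - J.card)) := by
  classical
  set D := Fintype.card X with hD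
  let Ω : Finset (X × Y) := univ.filter fun e => e.1 ∉ I ∨ e.2 ∈ J
  have hΩ : Ω.card = D * Fintype.card Y - I.card * (Fintype.card Y - J.card) := by
    have h1 : Ω = (I ×ˢ Jᶜ)ᶜ := by
      ext ⟨i, j⟩
      simp only [Ω, mem_filter, mem_univ, true_and, mem_compl, mem_product]
      tauto
    rw [h1, card_compl, card_product, card_compl, Fintype.card_prod]
  let π : (X → Y → ι) → (Ω → ι) := fun f e => f e.1.1 e.1.2
  have key := card_le_mul_card_image_of_maps_to (s := B) (t := (univ : Finset (Ω → ι))) (f := π)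
    (fun _ _ => mem_univ _) (((D ^ 2 * D + 1) ^ D) ^ Fintype.card Y) (by
      intro g _
      rcases Finset.eq_empty_or_nonempty (B.filter fun a => π a = g) with he | ⟨f0, hf0⟩
      · rw [he, card_empty]
        exact Nat.zero_le _
      rw [mem_filter] at hf0
      obtain ⟨hf0i, lam0, hl1, hl2, hl3, hl4⟩ := hB f0 hf0.1
      -- all elements of the fibre satisfy the relations of `f0`
      have hrel : ∀ f ∈ B.filter (fun a => π a = g), (∀ j, Function.Injective fun i => f i j) ∧
          ∀ j, ∑ i, lam0 i * w (f i j) = 0 := by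
        intro f hf
        rw [mem_filter] at hf
        obtain ⟨hfi, lam, hm1, hm2, hm3, hm4⟩ := hB f hf.1
        refine ⟨hfi, fun j => ?_⟩
        obtain ⟨c, hc⟩ := hm4 lam0 hl2 (by
          intro j hj
          rw [← hl3 j]
          refine sum_congr rfl fun i _ => ?_
          have h1 : π f = π f0 := hf.2.trans hf0.2.symm
          have h2 := congrFun h1 ⟨(i, j), mem_filter.2 ⟨mem_univ _, Or.inr hj⟩⟩
          have h3 : f i j = f0 i j := h2
          rw [h3])
        rw [hc]
        have h4 := hm3 j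
        calc ∑ i, (c • lam) i * w (f i j) = c * ∑ i, lam i * w (f i j) := by
              rw [mul_sum]
              exact sum_congr rfl fun i _ => by rw [Pi.smul_apply, smul_eq_mul, mul_assoc]
          _ = 0 := by rw [h4, mul_zero]
      let R : Finset (I → ι) := univ.filter fun v =>
        Function.Injective v ∧ ∑ i : I, lam0 i * w (v i) = 0
      have hRc : R.card ≤ (D ^ 2 * D + 1) ^ D := by
        have h1 := few_solutions w hw hL (α := I) (fun i : I => lam0 i)
          (fun i => hl1 i i.2) R (fun v hv => (mem_filter.1 hv).2)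
        rw [Fintype.card_coe] at h1
        have hI : I.card ≤ D := card_le_univ I
        calc R.card ≤ (I.card ^ 2 * (I.card - 1)) ^ I.card := h1
          _ ≤ (D ^ 2 * D + 1) ^ I.card := by
              refine Nat.pow_le_pow_left ?_ _
              calc I.card ^ 2 * (I.card - 1) ≤ D ^ 2 * D :=
                    Nat.mul_le_mul (Nat.pow_le_pow_left hI 2) (by omega)
                _ ≤ D ^ 2 * D + 1 := Nat.le_succ _
          _ ≤ (D ^ 2 * D + 1) ^ D := Nat.pow_le_pow_right (by omega) hI
      have hmemR : ∀ f ∈ B.filter (fun a => π a = g), ∀ j, (fun i : I => f i j) ∈ R := by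
        intro f hf j
        obtain ⟨h1, h2⟩ := hrel f hf
        refine mem_filter.2 ⟨mem_univ _, ?_, ?_⟩
        · intro a b hab
          exact Subtype.ext (h1 j hab)
        · rw [← h2 j]
          rw [sum_coe_sort I (fun i => lam0 i * w (f i j))]
          refine sum_subset (subset_univ _) fun i _ hi => ?_
          rw [hl2 i hi, zero_mul]
      calc (B.filter fun a => π a = g).card
          = Fintype.card (B.filter fun a => π a = g) := (Fintype.card_coe _).symm
        _ ≤ Fintype.card (Y → R) := by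
            refine Fintype.card_le_of_injective
              (fun f : (B.filter fun a => π a = g) => fun j =>
                (⟨fun i : I => (f : X → Y → ι) i j, hmemR f f.2 j⟩ : R)) ?_
            intro f f' hff
            apply Subtype.ext
            funext i j
            by_cases hi : i ∈ I
            · have h1 := congrArg Subtype.val (congrFun hff j)
              exact congrFun h1 ⟨i, hi⟩
            · have h1 : π f = π f' := (mem_filter.1 f.2).2.trans (mem_filter.1 f'.2).2.symm
              exact congrFun h1 ⟨(i, j), mem_filter.2 ⟨mem_univ _, Or.inl hi⟩⟩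
        _ = R.card ^ Fintype.card Y := by rw [Fintype.card_fun, Fintype.card_coe]
        _ ≤ ((D ^ 2 * D + 1) ^ D) ^ Fintype.card Y := Nat.pow_le_pow_left hRc _)
  rw [card_univ, Fintype.card_fun, Fintype.card_coe, hΩ] at key
  exact key

/-- every matrix with dependent rows has a type -/
theorem exists_typ {X Y ι : Type*} [Fintype X] [DecidableEq X] [Fintype Y] [DecidableEq Y]
    (w : ι → ℂ) (f : X → Y → ι) (hf : ∀ j, Function.Injective fun i => f i j)
    (hdep : ∃ lam : X → ℂ, lam ≠ 0 ∧ ∀ j, ∑ i, lam i * w (f i j) = 0) :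
    ∃ (I : Finset X) (J : Finset Y), J.card < I.card ∧ Typ w I J f := by
  classical
  -- a relation with the fewest nonzero coefficients
  let supp : (X → ℂ) → Finset X := fun lam => univ.filter fun i => lam i ≠ 0
  obtain ⟨lam1, hlam1⟩ := hdep
  let P : ℕ → Prop := fun n => ∃ lam : X → ℂ, lam ≠ 0 ∧ (∀ j, ∑ i, lam i * w (f i j) = 0) ∧
    (supp lam).card = n
  have hP : ∃ n, P n := ⟨_, lam1, hlam1.1, hlam1.2, rfl⟩
  obtain ⟨lam, hl0, hl1, hlc⟩ := Nat.find_spec hP
  have hmin : ∀ mu : X → ℂ, mu ≠ 0 → (∀ j, ∑ i, mu i * w (f i j) = 0) →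
      (supp lam).card ≤ (supp mu).card := by
    intro mu h1 h2
    rw [hlc]
    exact Nat.find_min' hP ⟨mu, h1, h2, rfl⟩
  set I := supp lam with hI
  have hI1 : ∀ i ∈ I, lam i ≠ 0 := fun i hi => (mem_filter.1 hi).2
  have hI2 : ∀ i, i ∉ I → lam i = 0 := by
    intro i hi
    by_contra h
    exact hi (mem_filter.2 ⟨mem_univ _, h⟩)
  obtain ⟨i0, hi0⟩ : I.Nonempty := by
    by_contra h
    rw [not_nonempty_iff_eq_empty] at h
    apply hl0
    funext i
    exact hI2 i (by rw [h]; exact notMem_empty i)
  have huniq : ∀ mu : X → ℂ, (∀ i, i ∉ I → mu i = 0) → (∀ j, ∑ i, mu i * w (f i j) = 0) →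
      ∃ c : ℂ, mu = c • lam := by
    intro mu h1 h2
    refine ⟨mu i0 / lam i0, ?_⟩
    by_contra hne
    have h3 : mu - (mu i0 / lam i0) • lam ≠ 0 := fun h => hne (sub_eq_zero.1 h)
    have h4 := hmin _ h3 (by
      intro j
      have e : ∑ i, (mu - (mu i0 / lam i0) • lam) i * w (f i j) =
          ∑ i, mu i * w (f i j) - (mu i0 / lam i0) * ∑ i, lam i * w (f i j) := by
        rw [mul_sum, ← sum_sub_distrib]
        refine sum_congr rfl fun i _ => ?_
        rw [Pi.sub_apply, Pi.smul_apply, smul_eq_mul]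
        ring
      rw [e, h2 j, hl1 j, mul_zero, sub_zero])
    have h5 : supp (mu - (mu i0 / lam i0) • lam) ⊆ I.erase i0 := by
      intro i hi
      have hi' := (mem_filter.1 hi).2
      rw [Pi.sub_apply, Pi.smul_apply, smul_eq_mul] at hi'
      rw [mem_erase]
      constructor
      · rintro rfl
        apply hi'
        rw [div_mul_cancel₀ _ (hI1 _ hi0), sub_self]
      · by_contra hiI
        apply hi'
        rw [h1 i hiI, hI2 i hiI, mul_zero, sub_zero]
    have h6 := card_le_card h5
    rw [card_erase_of_mem hi0] at h6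
    have h7 : 0 < I.card := card_pos.2 ⟨i0, hi0⟩
    omega
  -- the columns
  let v : Y → (I → ℂ) := fun j i => w (f i j)
  obtain ⟨κ, a, ha, hspan, hli⟩ := exists_linearIndependent' ℂ v
  have : Finite κ := Finite.of_injective a ha
  have := Fintype.ofFinite κ
  let φ : (I → ℂ) →ₗ[ℂ] ℂ := ∑ i : I, lam i • LinearMap.proj i
  have hφ : ∀ x : I → ℂ, φ x = ∑ i : I, lam i * x i := by
    intro x
    simp [φ]
  have hrest : ∀ (mu : X → ℂ), (∀ i, i ∉ I → mu i = 0) → ∀ j,
      ∑ i, mu i * w (f i j) = ∑ i : I, mu i * v j i := by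
    intro mu h1 j
    rw [sum_coe_sort I (fun i => mu i * w (f i j))]
    symm
    refine sum_subset (subset_univ _) fun i _ hi => ?_
    rw [h1 i hi, zero_mul]
  have hlt : finrank ℂ (Submodule.span ℂ (Set.range v)) < I.card := by
    have h1 : Submodule.span ℂ (Set.range v) ≠ ⊤ := by
      intro htop
      have h2 : Submodule.span ℂ (Set.range v) ≤ LinearMap.ker φ := by
        rw [Submodule.span_le]
        rintro _ ⟨j, rfl⟩
        rw [SetLike.mem_coe, LinearMap.mem_ker, hφ, ← hrest lam hI2 j]
        exact hl1 j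
      rw [htop] at h2
      have h3 : φ (Pi.single ⟨i0, hi0⟩ 1) = 0 := LinearMap.mem_ker.1 (h2 Submodule.mem_top)
      rw [hφ, sum_eq_single ⟨i0, hi0⟩] at h3
      · rw [Pi.single_eq_same, mul_one] at h3
        exact hI1 i0 hi0 h3
      · intro b _ hb
        rw [Pi.single_eq_of_ne hb, mul_zero]
      · intro h
        exact absurd (mem_univ _) h
    have h4 := Submodule.finrank_lt h1
    rw [Module.finrank_fintype_fun_eq_card, Fintype.card_coe] at h4
    exact h4
  have hκ : Fintype.card κ < I.card := by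
    have h1 := finrank_span_eq_card hli
    rw [hspan] at h1
    omega
  refine ⟨I, univ.image a, ?_, hf, lam, hI1, hI2, hl1, ?_⟩
  · exact lt_of_le_of_lt card_image_le (by rw [card_univ]; exact hκ)
  · intro mu h1 h2
    refine huniq mu h1 ?_
    intro j
    let ψ : (I → ℂ) →ₗ[ℂ] ℂ := ∑ i : I, mu i • LinearMap.proj i
    have hψ : ∀ x : I → ℂ, ψ x = ∑ i : I, mu i * x i := by
      intro x
      simp [ψ]
    have h3 : Submodule.span ℂ (Set.range v) ≤ LinearMap.ker ψ := by
      rw [← hspan, Submodule.span_le]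
      rintro _ ⟨k, rfl⟩
      rw [SetLike.mem_coe, LinearMap.mem_ker, hψ]
      have h4 := h2 (a k) (mem_image_of_mem _ (mem_univ k))
      rw [hrest mu h1] at h4
      exact h4
    have h5 := h3 (Submodule.subset_span ⟨j, rfl⟩)
    rw [LinearMap.mem_ker, hψ] at h5
    rw [hrest mu h1]
    exact h5

/-- **The number of matrices with dependent rows.** -/
theorem card_dependent {X Y ι : Type*} [Fintype X] [DecidableEq X] [Fintype Y] [DecidableEq Y]
    [Fintype ι] [DecidableEq ι] (hXY : Fintype.card X ≤ Fintype.card Y) (w : ι → ℂ)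
    (hw : LinearIndependent QB w) (hL : ∀ i, w i ∈ Lt) (B : Finset (X → Y → ι))
    (hB : ∀ f ∈ B, (∀ j, Function.Injective fun i => f i j) ∧
      ∃ lam : X → ℂ, lam ≠ 0 ∧ ∀ j, ∑ i, lam i * w (f i j) = 0) :
    B.card ≤ 2 ^ Fintype.card X * 2 ^ Fintype.card Y *
      ((Fintype.card X ^ 2 * Fintype.card X + 1) ^ Fintype.card X) ^ Fintype.card Y *
      Fintype.card ι ^ (Fintype.card X * Fintype.card Y - Fintype.card Y) := by
  classical
  rcases B.eq_empty_or_nonempty with hE | ⟨f0, hf0⟩
  · rw [hE, card_empty]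
    exact Nat.zero_le _
  have hN : 0 < Fintype.card ι ∨ Fintype.card X * Fintype.card Y = 0 := by
    by_cases h : Fintype.card X * Fintype.card Y = 0
    · exact Or.inr h
    · left
      have h1 : 0 < Fintype.card X * Fintype.card Y := Nat.pos_of_ne_zero h
      have hX : 0 < Fintype.card X := by
        rcases Nat.eq_zero_or_pos (Fintype.card X) with h2 | h2
        · rw [h2, zero_mul] at h1; exact absurd h1 (lt_irrefl _)
        · exact h2
      have hY : 0 < Fintype.card Y := by
        rcases Nat.eq_zero_or_pos (Fintype.card Y) with h2 | h2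
        · rw [h2, mul_zero] at h1; exact absurd h1 (lt_irrefl _)
        · exact h2
      obtain ⟨x⟩ := Fintype.card_pos_iff.1 hX
      obtain ⟨y⟩ := Fintype.card_pos_iff.1 hY
      exact Fintype.card_pos_iff.2 ⟨f0 x y⟩
  let T : Finset (Finset X × Finset Y) := univ.filter fun p => p.2.card < p.1.card
  have hsub : B ⊆ T.biUnion fun p => B.filter fun f => Typ w p.1 p.2 f := by
    intro f hf
    obtain ⟨h1, h2⟩ := hB f hf
    obtain ⟨I, J, hIJ, hT⟩ := exists_typ w f h1 h2
    exact mem_biUnion.2 ⟨(I, J), mem_filter.2 ⟨mem_univ _, hIJ⟩, mem_filter.2 ⟨hf, hT⟩⟩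
  calc B.card ≤ (T.biUnion fun p => B.filter fun f => Typ w p.1 p.2 f).card := card_le_card hsub
    _ ≤ ∑ p ∈ T, (B.filter fun f => Typ w p.1 p.2 f).card := card_biUnion_le
    _ ≤ ∑ _p ∈ T, ((Fintype.card X ^ 2 * Fintype.card X + 1) ^
          Fintype.card X) ^ Fintype.card Y *
        Fintype.card ι ^ (Fintype.card X * Fintype.card Y - Fintype.card Y) := by
        refine sum_le_sum fun p hp => ?_
        have hp' := (mem_filter.1 hp).2
        refine (card_typ w hw hL p.1 p.2 _ fun f hf => (mem_filter.1 hf).2).trans ?_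
        refine Nat.mul_le_mul_left _ ?_
        rcases hN with hN | hN
        · refine Nat.pow_le_pow_right hN ?_
          have h1 : Fintype.card Y ≤ p.1.card * (Fintype.card Y - p.2.card) := by
            have h2 : p.1.card ≤ Fintype.card X := card_le_univ _
            obtain ⟨b, hb⟩ : ∃ b, p.1.card = b + 1 := ⟨p.1.card - 1, by omega⟩
            obtain ⟨m, hm⟩ : ∃ m, Fintype.card Y = b + 1 + m := ⟨Fintype.card Y - (b + 1), by omega⟩
            rw [hb, hm]
            calc b + 1 + m ≤ (b + 1) * (m + 1) := by nlinarith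
              _ ≤ (b + 1) * (b + 1 + m - p.2.card) := Nat.mul_le_mul_left _ (by omega)
          omega
        · rw [hN]
          simp
    _ = T.card * _ := by rw [sum_const, smul_eq_mul]
    _ ≤ (2 ^ Fintype.card X * 2 ^ Fintype.card Y) * _ := by
        refine Nat.mul_le_mul_right _ ?_
        calc T.card ≤ (univ : Finset (Finset X × Finset Y)).card := card_filter_le _ _
          _ = 2 ^ Fintype.card X * 2 ^ Fintype.card Y := by
            rw [card_univ, Fintype.card_prod, Fintype.card_finset, Fintype.card_finset]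
    _ = _ := by ring

end Pool.Agent.K9h27.LR
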